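import Mathlib

/-!
The group `K₂` of a field (Matsumoto's presentation) and the kernel of the tame symbol.
-/

namespace Pool.Agent.MP_f3836a_nt.H61

/-- Matsumoto's relations in the free abelian group on the pairs of nonzero elements:
bimultiplicativity and the Steinberg relation. -/
inductive Rel (F : Type) [Field F] : FreeAbelianGroup (Fˣ × Fˣ) → Prop
  | left (a a' b : Fˣ) :
      Rel F (FreeAbelianGroup.of (a * a', b) - FreeAbelianGroup.of (a, b) -
        FreeAbelianGroup.of (a', b))
  | right (a b b' : Fˣ) :
      Rel F (FreeAbelianGroup.of (a, b * b') - FreeAbelianGroup.of (a, b) -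
        FreeAbelianGroup.of (a, b'))
  | steinberg (a b : Fˣ) (h : (a : F) + b = 1) : Rel F (FreeAbelianGroup.of (a, b))

/-- `K₂(F)`, written additively. -/
def K2 (F : Type) [Field F] : Type :=
  FreeAbelianGroup (Fˣ × Fˣ) ⧸ AddSubgroup.closure {t | Rel F t}

/-- The quotient group structure. -/
instance instK2 (F : Type) [Field F] : AddCommGroup (K2 F) :=
  QuotientAddGroup.Quotient.addCommGroup _

/-- The symbol `{a, b}`. -/
def sym {F : Type} [Field F] (a b : Fˣ) : K2 F := QuotientAddGroup.mk (FreeAbelianGroup.of (a, b))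

/-- `a` and `b` are units of the valuation ring `O`, or one of them is congruent to `1` modulo the
maximal ideal of `O`. -/
def Tame {F : Type} [Field F] (O : ValuationSubring F) (a b : F) : Prop :=
  (O.valuation a = 1 ∧ O.valuation b = 1) ∨ O.valuation (a - 1) < 1 ∨ O.valuation (b - 1) < 1

/-- The subgroup of `K₂(F)` generated by the symbols `{a, b}` with `Tame O a b`. For a discrete
valuation ring this is the kernel of the tame symbol. -/
def unram {F : Type} [Field F] (O : ValuationSubring F) : AddSubgroup (K2 F) :=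
  AddSubgroup.closure {t | ∃ a b : Fˣ, t = sym a b ∧ Tame O a b}

/-- The lines `a i * x + b i * y + c i` over the ring `R` have coprime linear coefficients, two
non-parallel ones meet in a point of `R²`, no three pass through a point of `R²`, and the line
number `0` is parallel to no other. -/
structure Arr {R : Type} [CommRing R] {n : ℕ} (a b c : Fin (n + 1) → R) : Prop where
  prim : ∀ i, IsCoprime (a i) (b i)
  meet : ∀ i j, a i * b j ≠ a j * b i →
    ∃ s t : R, a i * s + b i * t + c i = 0 ∧ a j * s + b j * t + c j = 0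
  three : ∀ i j m, i ≠ j → i ≠ m → j ≠ m → ∀ s t : R, a i * s + b i * t + c i = 0 →
    a j * s + b j * t + c j = 0 → a m * s + b m * t + c m ≠ 0
  zero : ∀ i, i ≠ 0 → a 0 * b i ≠ a i * b 0

/-- The pairs `0 < i < j` of non-parallel lines. -/
def Pairs {R : Type} [CommRing R] {n : ℕ} (a b : Fin (n + 1) → R) : Type :=
  {p : Fin (n + 1) × Fin (n + 1) // 0 < p.1 ∧ p.1 < p.2 ∧ a p.1 * b p.2 ≠ a p.2 * b p.1}

/-- The point `(x, y)` of `F²` lies on the curve `l ∏ (a i * x + b i * y + c i) = 1`. -/
def OnCurve {R F : Type} [CommRing R] [Field F] (f : R →+* F) {n : ℕ} (a b c : Fin (n + 1) → R)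
    (l : R) (x y : F) : Prop :=
  f l * ∏ i, (f (a i) * x + f (b i) * y + f (c i)) = 1

end Pool.Agent.MP_f3836a_nt.H61
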