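import Mathlib

/-!
Transcendental points of the curve give embeddings of its function field.
-/

namespace Pool.Agent.MP_f3836a_nt.H61

open Polynomial

variable {k : Type} [Field k]

lemma irred {M : k[X][X]} {β : k} (hβ : β ≠ 0) (hM : M.leadingCoeff = C β) (hd : M.natDegree ≠ 0) :
    Irreducible (C X * M - 1) ∧ (C X * M - 1).natDegree ≠ 0 ∧
      (C X * M - 1).leadingCoeff = X * C β := by
  have h1 : (C X * M).natDegree = M.natDegree := natDegree_C_mul X_ne_zero
  have h2 : (1 : k[X][X]).degree < (C X * M).degree :=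
    degree_lt_degree (by rw [h1, natDegree_one]; omega)
  have h3 : (C X * M - 1).natDegree = M.natDegree := by
    rw [natDegree_sub_eq_left_of_natDegree_lt (by rw [h1, natDegree_one]; omega), h1]
  have h4 : (C X * M - 1).leadingCoeff = X * C β := by
    rw [leadingCoeff_sub_of_degree_lt h2, leadingCoeff_mul, leadingCoeff_C, hM]
  refine ⟨⟨fun h => hd (h3 ▸ natDegree_eq_zero_of_isUnit h), fun G H e => ?_⟩, h3 ▸ hd, h4⟩
  have key : ∀ G H : k[X][X], C X * M - 1 = G * H →
      (G.natDegree ≠ 0 → X ∣ G.leadingCoeff) ∧ (G.natDegree = 0 → IsUnit G) := fun G H e => by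
    have e1 := congrArg (map (evalRingHom 0)) e
    simp only [Polynomial.map_sub, Polynomial.map_mul, map_C, coe_evalRingHom, eval_X, map_zero,
      zero_mul, Polynomial.map_one, zero_sub] at e1
    have u : IsUnit (G.map (evalRingHom 0)) := isUnit_of_mul_isUnit_left (e1 ▸ isUnit_one.neg)
    refine ⟨fun h => ?_, fun h => ?_⟩
    · have := coeff_eq_zero_of_natDegree_lt (p := G.map (evalRingHom 0)) (n := G.natDegree)
        (by rw [natDegree_eq_zero_of_isUnit u]; omega)
      rw [coeff_map, coe_evalRingHom, ← coeff_zero_eq_eval_zero] at this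
      exact X_dvd_iff.2 this
    · obtain ⟨g, rfl⟩ := natDegree_eq_zero.1 h
      rw [e, leadingCoeff_mul, leadingCoeff_C] at h4
      rw [map_C, isUnit_C, coe_evalRingHom, ← coeff_zero_eq_eval_zero] at u
      obtain ⟨l, hl⟩ := (prime_X.dvd_or_dvd ⟨_, h4⟩).resolve_left
        fun h5 => u.ne_zero (X_dvd_iff.1 h5)
      rw [hl, mul_left_comm, mul_right_inj' X_ne_zero] at h4
      exact isUnit_C.2 (isUnit_of_mul_isUnit_left (h4 ▸ isUnit_C.2 hβ.isUnit))
  by_contra hc
  push Not at hc
  obtain ⟨g, hg⟩ := (key G H e).1 (mt (key G H e).2 hc.1)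
  obtain ⟨l, hl⟩ := (key H G (e.trans (mul_comm _ _))).1 (mt (key H G (e.trans (mul_comm _ _))).2 hc.2)
  rw [e, leadingCoeff_mul, hg, hl, mul_assoc, mul_right_inj' X_ne_zero] at h4
  exact hβ (by simpa using (congrArg (eval 0) h4).symm)

variable {K K' : Type} [Field K] [Algebra k K] [Field K'] [Algebra k K']

lemma emb_core {Q : k[X][X]} (hQ : Irreducible Q) (hd : Q.natDegree ≠ 0) {s t : K} {s' t' : K'}
    (hs : Transcendental k s) (hs' : Transcendental k s')
    (h : Q.eval₂ (aeval s).toRingHom t = 0) (h' : Q.eval₂ (aeval s').toRingHom t' = 0)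
    (hg : IntermediateField.adjoin k {s, t} = ⊤) : ∃ σ : K →ₐ[k] K', σ s = s' ∧ σ t = t' := by
  have j1 : Function.Injective (aeval s : k[X] →ₐ[k] K).toRingHom :=
    transcendental_iff_injective.1 hs
  have j2 : Function.Injective (aeval s' : k[X] →ₐ[k] K').toRingHom :=
    transcendental_iff_injective.1 hs'
  let i : FractionRing k[X] →+* K := IsFractionRing.lift j1
  let i' : FractionRing k[X] →+* K' := IsFractionRing.lift j2
  have hi : ∀ p, i (algebraMap k[X] _ p) = aeval s p := fun p => IsFractionRing.lift_algebraMap j1 p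
  have hi' : ∀ p, i' (algebraMap k[X] _ p) = aeval s' p := fun p =>
    IsFractionRing.lift_algebraMap j2 p
  let _ := i.toAlgebra
  let _ := i'.toAlgebra
  have hQ0 := (hQ.isPrimitive hd).irreducible_iff_irreducible_map_fraction_map
    (K := FractionRing k[X]) |>.1 hQ
  have r : aeval t (Q.map (algebraMap k[X] (FractionRing k[X]))) = 0 := by
    rw [aeval_def, eval₂_map, ← h]
    exact congrArg (fun f => eval₂ f t Q) (RingHom.ext hi)
  have r' : aeval t' (Q.map (algebraMap k[X] (FractionRing k[X]))) = 0 := by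
    rw [aeval_def, eval₂_map, ← h']
    exact congrArg (fun f => eval₂ f t' Q) (RingHom.ext hi')
  have hint : IsIntegral (FractionRing k[X]) t := IsAlgebraic.isIntegral ⟨_, hQ0.ne_zero, r⟩
  have hy : aeval t' (minpoly (FractionRing k[X])
      (IntermediateField.adjoin.powerBasis hint).gen) = 0 := by
    rw [IntermediateField.adjoin.powerBasis_gen, IntermediateField.minpoly_gen,
      ← minpoly.eq_of_irreducible hQ0 r, map_mul, r', zero_mul]
  let τ := (IntermediateField.adjoin.powerBasis hint).lift t' hy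
  have hm : ∀ p, aeval s p ∈ IntermediateField.adjoin (FractionRing k[X]) {t} := fun p =>
    hi p ▸ IntermediateField.algebraMap_mem _ _
  have hτ : ∀ p, τ ⟨aeval s p, hm p⟩ = aeval s' p := fun p => by
    rw [← hi', show (⟨aeval s p, hm p⟩ : IntermediateField.adjoin (FractionRing k[X]) {t}) =
      algebraMap (FractionRing k[X]) _ (algebraMap k[X] _ p) from Subtype.ext (hi p).symm,
      τ.commutes]
    rfl
  have htop : ∀ f : K, f ∈ IntermediateField.adjoin (FractionRing k[X]) {t} := fun f => by
    have : f ∈ IntermediateField.adjoin k {s, t} := hg ▸ IntermediateField.mem_top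
    refine (Subfield.closure_le (t := (IntermediateField.adjoin (FractionRing k[X])
      {t}).toSubfield)).2 ?_ this
    rintro g (⟨a, rfl⟩ | rfl | rfl)
    · have := hm (C a)
      rwa [aeval_C] at this
    · have := hm X
      rwa [aeval_X] at this
    · exact IntermediateField.mem_adjoin_simple_self _ _
  let j : K →+* IntermediateField.adjoin (FractionRing k[X]) {t} :=
    (RingHom.id K).codRestrict _ htop
  refine ⟨⟨τ.toRingHom.comp j, fun a => ?_⟩, ?_, ?_⟩
  · have := hτ (C a)
    simp only [aeval_C] at this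
    exact this
  · have := hτ X
    simp only [aeval_X] at this
    exact this
  · exact (IntermediateField.adjoin.powerBasis hint).lift_gen t' hy

lemma trans_of {Q : k[X][X]} {β : k} (hβ : β ≠ 0) (hQ : Q.leadingCoeff = X * C β) {s t : K}
    (h0 : s ≠ 0) (h : Q.eval₂ (aeval s).toRingHom t = 0)
    (hn : ¬(IsAlgebraic k s ∧ IsAlgebraic k t)) : Transcendental k s := fun hs => by
  let s0 : algebraicClosure k K := ⟨s, hs.isIntegral⟩
  have e : (algebraMap (algebraicClosure k K) K).comp (aeval (R := k) s0).toRingHom =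
      (aeval (R := k) s).toRingHom :=
    RingHom.ext fun p => (aeval_algebraMap_apply K s0 p).symm
  have : IsAlgebraic (algebraicClosure k K) t := by
    refine ⟨Q.map (aeval s0).toRingHom, fun e1 => ?_, by rw [aeval_def, eval₂_map, e, h]⟩
    have := congrArg (fun p => algebraMap _ K (coeff p Q.natDegree)) e1
    simp only [coeff_map, coeff_zero, map_zero] at this
    rw [← RingHom.comp_apply, e, ← leadingCoeff, hQ] at this
    simp [h0, hβ] at this
  exact hn ⟨hs, this.restrictScalars k⟩

theorem emb {n : ℕ} (hn : n ≠ 0) {a b c : Fin (n + 1) → k} {l : k} (h0 : IsCoprime (a 0) (b 0))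
    (hd : ∀ i : Fin n, a 0 * b i.succ ≠ a i.succ * b 0) {x y : K} {x' y' : K'}
    (h : algebraMap k K l * ∏ i, (algebraMap k K (a i) * x + algebraMap k K (b i) * y +
      algebraMap k K (c i)) = 1)
    (h' : algebraMap k K' l * ∏ i, (algebraMap k K' (a i) * x' + algebraMap k K' (b i) * y' +
      algebraMap k K' (c i)) = 1)
    (ht : Algebra.Transcendental k K) (ht' : ¬(IsAlgebraic k x' ∧ IsAlgebraic k y'))
    (hg : IntermediateField.adjoin k {x, y} = ⊤) : ∃ σ : K →ₐ[k] K', σ x = x' ∧ σ y = y' := by
  obtain ⟨u, v, huv⟩ := h0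
  have hl : l ≠ 0 := by rintro rfl; simp at h
  let M : k[X][X] := C (C l) * ∏ i : Fin n, (C (C (a 0 * b i.succ - a i.succ * b 0)) * X +
    C (C (a i.succ * u + b i.succ * v) * (X - C (c 0)) + C (c i.succ)))
  have d0 : ∀ i : Fin n, C (a 0 * b i.succ - a i.succ * b 0) ≠ 0 := fun i =>
    C_ne_zero.2 (sub_ne_zero.2 (hd i))
  obtain ⟨q1, q2, q3⟩ := irred (M := M) (β := l * ∏ i : Fin n, (a 0 * b i.succ - a i.succ * b 0))
    (mul_ne_zero hl (Finset.prod_ne_zero_iff.2 fun i _ => sub_ne_zero.2 (hd i)))
    (by simp only [M, leadingCoeff_mul, leadingCoeff_C, leadingCoeff_prod,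
      leadingCoeff_linear (d0 _), map_mul, map_prod]) (by
      rw [natDegree_C_mul (C_ne_zero.2 hl), natDegree_prod _ _ fun i _ e => by
        have := natDegree_linear (b := C (a i.succ * u + b i.succ * v) * (X - C (c 0)) +
          C (c i.succ)) (d0 i)
        rw [e] at this
        exact zero_ne_one this]
      simpa only [natDegree_linear (d0 _), Finset.sum_const, Finset.card_univ, Fintype.card_fin,
        smul_eq_mul, mul_one] using hn)
  have key : ∀ (L : Type) [Field L] [Algebra k L] (x y : L), algebraMap k L l *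
      ∏ i, (algebraMap k L (a i) * x + algebraMap k L (b i) * y + algebraMap k L (c i)) = 1 →
      ¬(IsAlgebraic k x ∧ IsAlgebraic k y) → ∃ s t : L,
      s = algebraMap k L (a 0) * x + algebraMap k L (b 0) * y + algebraMap k L (c 0) ∧
      t = -algebraMap k L v * x + algebraMap k L u * y ∧
      x = algebraMap k L u * (s - algebraMap k L (c 0)) - algebraMap k L (b 0) * t ∧
      y = algebraMap k L v * (s - algebraMap k L (c 0)) + algebraMap k L (a 0) * t ∧
      Transcendental k s ∧ (C X * M - 1).eval₂ (aeval s).toRingHom t = 0 := by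
    intro L _ _ x y h hna
    have e := congrArg (algebraMap k L) huv
    rw [map_add, map_mul, map_mul, map_one] at e
    set s := algebraMap k L (a 0) * x + algebraMap k L (b 0) * y + algebraMap k L (c 0) with hs
    set t := -algebraMap k L v * x + algebraMap k L u * y with ht
    have ex : x = algebraMap k L u * (s - algebraMap k L (c 0)) - algebraMap k L (b 0) * t := by
      rw [hs, ht]; linear_combination (-x) * e
    have ey : y = algebraMap k L v * (s - algebraMap k L (c 0)) + algebraMap k L (a 0) * t := by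
      rw [hs, ht]; linear_combination (-y) * e
    rw [Fin.prod_univ_succ, ← hs] at h
    have r : (C X * M - 1).eval₂ (aeval s).toRingHom t = 0 := by
      rw [← coe_eval₂RingHom]
      simp only [M, map_sub, map_mul, map_prod, map_add, map_one, coe_eval₂RingHom, eval₂_C,
        eval₂_X, AlgHom.toRingHom_eq_coe, RingHom.coe_coe, aeval_X, aeval_C]
      rw [← h, mul_left_comm, sub_eq_zero]
      congr 3
      funext i
      conv_rhs => rw [ex, ey]
      ring
    refine ⟨s, t, rfl, rfl, ex, ey, trans_of (mul_ne_zero hl (Finset.prod_ne_zero_iff.2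
      fun i _ => sub_ne_zero.2 (hd i))) q3 (fun e => by simp [e] at h) r fun ⟨a1, a2⟩ => ?_, r⟩
    have b1 : s ∈ algebraicClosure k L := a1.isIntegral
    have b2 : t ∈ algebraicClosure k L := a2.isIntegral
    have b3 := (algebraicClosure k L).algebraMap_mem
    refine hna ⟨IsIntegral.isAlgebraic (show x ∈ algebraicClosure k L from ?_),
      IsIntegral.isAlgebraic (show y ∈ algebraicClosure k L from ?_)⟩
    · rw [ex]; exact sub_mem (mul_mem (b3 _) (sub_mem b1 (b3 _))) (mul_mem (b3 _) b2)
    · rw [ey]; exact add_mem (mul_mem (b3 _) (sub_mem b1 (b3 _))) (mul_mem (b3 _) b2)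
  obtain ⟨s, t, -, -, e3, e4, e5, e6⟩ := key K x y h fun ⟨a1, a2⟩ => by
    obtain ⟨f, hf⟩ := ht.transcendental
    have : IntermediateField.adjoin k {x, y} ≤ algebraicClosure k K :=
      IntermediateField.adjoin_le_iff.2 (by
        rintro g (rfl | rfl)
        · exact a1.isIntegral
        · exact a2.isIntegral)
    exact hf (IsIntegral.isAlgebraic (this (hg ▸ IntermediateField.mem_top)))
  obtain ⟨s', t', -, -, e3', e4', e5', e6'⟩ := key K' x' y' h' ht'
  obtain ⟨σ, h1, h2⟩ := emb_core q1 q2 e5 e5' e6 e6' (by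
    refine top_le_iff.1 (hg ▸ IntermediateField.adjoin_le_iff.2 ?_)
    have b1 : s ∈ IntermediateField.adjoin k {s, t} := IntermediateField.subset_adjoin _ _ (by simp)
    have b2 : t ∈ IntermediateField.adjoin k {s, t} := IntermediateField.subset_adjoin _ _ (by simp)
    have b3 := (IntermediateField.adjoin k {s, t}).algebraMap_mem
    rintro g (rfl | rfl)
    · rw [e3]; exact sub_mem (mul_mem (b3 _) (sub_mem b1 (b3 _))) (mul_mem (b3 _) b2)
    · rw [e4]; exact add_mem (mul_mem (b3 _) (sub_mem b1 (b3 _))) (mul_mem (b3 _) b2))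
  exact ⟨σ, by rw [e3, e3']; simp [h1, h2], by rw [e4, e4']; simp [h1, h2]⟩

end Pool.Agent.MP_f3836a_nt.H61
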