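import Pool.Agent.MP_f3836a_nt.H61.Defs

/-!
The triangle symbols are unramified at every valuation.
-/

namespace Pool.Agent.MP_f3836a_nt.H61

variable {F : Type} [Field F]

lemma mk_rel {t : FreeAbelianGroup (Fˣ × Fˣ)} (h : Rel F t) :
    QuotientAddGroup.mk' (AddSubgroup.closure {t | Rel F t}) t = 0 :=
  (QuotientAddGroup.eq_zero_iff _).2 (AddSubgroup.subset_closure h)

lemma sym_mul_left (a a' b : Fˣ) : sym (a * a') b = sym a b + sym a' b := by
  have := mk_rel (Rel.left a a' b)
  rw [map_sub, map_sub, sub_sub, sub_eq_zero] at this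
  exact this

lemma sym_mul_right (a b b' : Fˣ) : sym a (b * b') = sym a b + sym a b' := by
  have := mk_rel (Rel.right a b b')
  rw [map_sub, map_sub, sub_sub, sub_eq_zero] at this
  exact this

lemma sym_st {a b : Fˣ} (h : (a : F) + b = 1) : sym a b = 0 := mk_rel (Rel.steinberg a b h)

lemma sym_neg (a : Fˣ) : sym (-a) a = 0 := by
  by_cases h : (a : F) = 1
  · obtain rfl : a = 1 := Units.ext h
    have := sym_mul_right (-1 : Fˣ) 1 1
    rw [mul_one] at this
    exact left_eq_add.1 this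
  · have h1 : (1 - a : F) ≠ 0 := sub_ne_zero.2 (Ne.symm h)
    have h2 : (1 - (a⁻¹ : Fˣ) : F) ≠ 0 := sub_ne_zero.2 fun e => h (by
      rw [Units.val_inv_eq_inv_val] at e
      exact inv_eq_one.1 e.symm)
    have e1 : sym (Units.mk0 _ h1) a = 0 := sym_st (by simp)
    have e2 : sym (Units.mk0 _ h2) a⁻¹ = 0 := sym_st (by simp)
    have e3 : Units.mk0 _ h1 = -a * Units.mk0 _ h2 := Units.ext (by
      simp only [Units.val_mk0, Units.val_mul, Units.val_neg, mul_sub, neg_mul, Units.mul_inv]; ring)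
    have e4 := sym_mul_right (Units.mk0 _ h2) a a⁻¹
    have e5 := sym_mul_right (Units.mk0 _ h2) 1 1
    rw [mul_one] at e5
    rw [mul_inv_cancel, e2, add_zero, left_eq_add.1 e5] at e4
    rwa [e3, sym_mul_left, ← e4, add_zero] at e1

lemma near_steinberg (O : ValuationSubring F) (u w : Fˣ)
    (h : (O.valuation u = 1 ∧ O.valuation w = 1) ∨ O.valuation (1 - u - w) < 1 ∨
      O.valuation (1 - u - w) < O.valuation u ∨ O.valuation (1 - u - w) < O.valuation w) :
    sym u w ∈ unram O := by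
  set v := O.valuation with hv
  have key : ∀ u w : Fˣ, v u < 1 →
      (v (1 - u - w) < 1 ∨ v (1 - u - w) < v u ∨ v (1 - u - w) < v w) → v (w - 1) < 1 := by
    intro u w hu h
    have e : (w - 1 : F) = -((1 - u - w) + u) := by ring
    have e1 : v (1 - u) = 1 := v.map_one_sub_of_lt hu
    rw [e, v.map_neg]
    refine v.map_add_lt ?_ hu
    rcases h with h | h | h
    · exact h
    · exact h.trans hu
    · have : v (1 - u) = v w := by
        rw [show (1 - u : F) = (1 - u - w) + w by ring]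
        exact v.map_add_eq_of_lt_right h
      rwa [← this, e1] at h
  rcases h with h | h
  · exact AddSubgroup.subset_closure ⟨u, w, rfl, Or.inl h⟩
  rcases lt_or_ge (v u) 1 with hu | hu
  · exact AddSubgroup.subset_closure ⟨u, w, rfl, Or.inr (Or.inr (key u w hu h))⟩
  rcases lt_or_ge (v w) 1 with hw | hw
  · exact AddSubgroup.subset_closure ⟨u, w, rfl, Or.inr (Or.inl (key w u hw (by
      rw [sub_right_comm]; tauto)))⟩
  by_cases h1 : v u = 1 ∧ v w = 1
  · exact AddSubgroup.subset_closure ⟨u, w, rfl, Or.inl h1⟩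
  have h2 : v (u + w) < max (v u) (v w) := by
    rw [show (u + w : F) = 1 - (1 - u - w) by ring]
    refine v.map_sub_lt ?_ ?_
    · rw [v.map_one, lt_max_iff]
      by_contra h3
      push Not at h3
      exact h1 ⟨le_antisymm h3.1 hu, le_antisymm h3.2 hw⟩
    · rcases h with h | h | h
      · exact h.trans_le (hu.trans (le_max_left _ _))
      · exact h.trans_le (le_max_left _ _)
      · exact h.trans_le (le_max_right _ _)
  have h3 : v u = v w := by
    by_contra h3
    exact h2.ne (v.map_add_of_distinct_val h3)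
  rw [h3, max_self] at h2
  rw [show u = (-u * w⁻¹) * -w by simp, sym_mul_left, sym_neg, add_zero]
  refine AddSubgroup.subset_closure ⟨_, w, rfl, Or.inr (Or.inl ?_)⟩
  rw [show ((-u * w⁻¹ : Fˣ) - 1 : F) = -((u + w) / w) by simp; field_simp; ring, v.map_neg,
    map_div₀, div_lt_one₀ (by simp [zero_lt_iff])]
  exact h2

lemma triangle (O : ValuationSubring F) {A B C : F} (hA : A ≠ 0) (u w : Fˣ) (hu : u = -B / A)
    (hw : w = -C / A)
    (h : (O.valuation A = O.valuation B ∧ O.valuation A = O.valuation C) ∨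
      O.valuation (A + B + C) < O.valuation A ∨ O.valuation (A + B + C) < O.valuation B ∨
      O.valuation (A + B + C) < O.valuation C) : sym u w ∈ unram O := by
  have h0 : 0 < O.valuation A := by simpa [zero_lt_iff] using hA
  refine near_steinberg O u w ?_
  rw [show (1 - u - w : F) = (A + B + C) / A by rw [hu, hw]; field_simp; ring, hu, hw]
  simp only [map_div₀, Valuation.map_neg, div_lt_one₀ h0, div_lt_div_iff_of_pos_right h0,
    div_eq_one_iff_eq h0.ne']
  exact h.imp_left fun h => ⟨h.1.symm, h.2.symm⟩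

section Ring

variable {R : Type} [CommRing R]

/-- value of a line at the intersection of two others is divisible by a determinant -/
lemma dvd_val {a1 b1 c1 a2 b2 c2 x y x' y' : R} (h2 : IsCoprime a2 b2)
    (e1 : a1 * x' + b1 * y' + c1 = 0) (e2 : a2 * x' + b2 * y' + c2 = 0)
    (e3 : a2 * x + b2 * y + c2 = 0) : a1 * b2 - a2 * b1 ∣ a1 * x + b1 * y + c1 := by
  obtain ⟨s, t, hst⟩ := h2
  exact ⟨t * (x - x') - s * (y - y'), by
    linear_combination e1 - (a1 * (x - x') + b1 * (y - y')) * hst +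
      (a1 * s + b1 * t) * (e3 - e2)⟩

end Ring

/-- The valuation-theoretic condition for three lines meeting pairwise in integral points. -/
theorem cond {Γ : Type} [LinearOrderedCommGroupWithZero Γ] (v : Valuation F Γ) {R : Type}
    [CommRing R] (f : R →+* F) (hf : ∀ r, v (f r) ≤ 1) {a0 b0 c0 a1 b1 c1 a2 b2 c2 : R} {x y : F}
    (p1 : IsCoprime a1 b1) (p2 : IsCoprime a2 b2)
    (d0 : f (a1 * b2 - a2 * b1) ≠ 0) (d1 : f (a2 * b0 - a0 * b2) ≠ 0)
    (d2 : f (a0 * b1 - a1 * b0) ≠ 0)
    (i0 : ∃ s t, a1 * s + b1 * t + c1 = 0 ∧ a2 * s + b2 * t + c2 = 0)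
    (i1 : ∃ s t, a0 * s + b0 * t + c0 = 0 ∧ a2 * s + b2 * t + c2 = 0)
    (i2 : ∃ s t, a0 * s + b0 * t + c0 = 0 ∧ a1 * s + b1 * t + c1 = 0)
    {L0 L1 L2 A B C : F} (l0 : L0 = f a0 * x + f b0 * y + f c0)
    (l1 : L1 = f a1 * x + f b1 * y + f c1) (l2 : L2 = f a2 * x + f b2 * y + f c2)
    (hu : v x ≤ 1 → v y ≤ 1 → v L0 = 1 ∧ v L1 = 1 ∧ v L2 = 1)
    (hA : A = f (a1 * b2 - a2 * b1) * L0) (hB : B = f (a2 * b0 - a0 * b2) * L1)
    (hC : C = f (a0 * b1 - a1 * b0) * L2) :
    (v A = v B ∧ v A = v C) ∨ v (A + B + C) < v A ∨ v (A + B + C) < v B ∨ v (A + B + C) < v C := by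
  obtain ⟨s, t, e1, e2⟩ := i0
  obtain ⟨s1, t1, e3, e4⟩ := i1
  obtain ⟨s2, t2, e5, e6⟩ := i2
  obtain ⟨m1, hm1⟩ := dvd_val p2 e3 e4 e2
  obtain ⟨m2, hm2⟩ := dvd_val p1 e5 e6 e1
  have f1 := congrArg f e1
  have f2 := congrArg f e2
  have hΔ : A + B + C = f (a1 * b2 - a2 * b1) * f (a0 * s + b0 * t + c0) := by
    rw [hA, hB, hC, l0, l1, l2]
    simp only [map_add, map_mul, map_sub, map_zero] at f1 f2 ⊢
    linear_combination (f a2 * f b0 - f a0 * f b2) * f1 + (f a0 * f b1 - f a1 * f b0) * f2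
  set D0 := v (f (a1 * b2 - a2 * b1)) with hD0
  set D1 := v (f (a2 * b0 - a0 * b2)) with hD1
  set D2 := v (f (a0 * b1 - a1 * b0)) with hD2
  have q0 : 0 < D0 := by simpa [hD0, zero_lt_iff, -map_sub] using d0
  have q1 : 0 < D1 := by simpa [hD1, zero_lt_iff, -map_sub] using d1
  have q2 : 0 < D2 := by simpa [hD2, zero_lt_iff, -map_sub] using d2
  have k1 : v (A + B + C) ≤ D0 * D1 := by
    rw [hΔ, hm1, show (a0 * b2 - a2 * b0) * m1 = (a2 * b0 - a0 * b2) * -m1 by ring, map_mul f,
      map_mul v, map_mul v]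
    exact mul_le_mul_right (mul_le_of_le_one_right' (hf _)) _
  have k2 : v (A + B + C) ≤ D0 * D2 := by
    rw [hΔ, hm2, map_mul f, map_mul v, map_mul v]
    exact mul_le_mul_right (mul_le_of_le_one_right' (hf _)) _
  have vA : v A = D0 * v L0 := by rw [hA, map_mul]
  have vB : v B = D1 * v L1 := by rw [hB, map_mul]
  have vC : v C = D2 * v L2 := by rw [hC, map_mul]
  by_cases hxy : v x ≤ 1 ∧ v y ≤ 1
  · obtain ⟨u0, u1, u2⟩ := hu hxy.1 hxy.2
    rw [u0, mul_one] at vA
    rw [u1, mul_one] at vB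
    rw [u2, mul_one] at vC
    have j0 : v (A + B + C) ≤ D0 := k1.trans (mul_le_of_le_one_right' (hf _))
    have j1 : v (A + B + C) ≤ D1 := k1.trans (mul_le_of_le_one_left' (hf _))
    have j2 : v (A + B + C) ≤ D2 := k2.trans (mul_le_of_le_one_left' (hf _))
    rw [vA, vB, vC]
    by_contra hc
    push Not at hc
    exact hc.1 (le_antisymm (hc.2.1.trans j1) (hc.2.2.1.trans j0))
      (le_antisymm (hc.2.1.trans j2) (hc.2.2.2.trans j0))
  · have m : D0 < v L1 ∨ D0 < v L2 := by
      by_contra hc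
      push Not at hc
      have key : ∀ (z : F) (r p q : R), f (a1 * b2 - a2 * b1) * (z - f r) = f p * L1 + f q * L2 →
          v z ≤ 1 := fun z r p q e => by
        have e7 : D0 * v (z - f r) ≤ D0 * 1 := by
          rw [mul_one, hD0, ← map_mul, e]
          refine v.map_add_le ?_ ?_ <;> rw [map_mul]
          · exact (mul_le_of_le_one_left' (hf _)).trans hc.1
          · exact (mul_le_of_le_one_left' (hf _)).trans hc.2
        rw [show z = (z - f r) + f r by ring]
        exact v.map_add_le (le_of_mul_le_mul_left e7 q0) (hf _)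
      refine hxy ⟨key x s b2 (-b1) ?_, key y t (-a2) a1 ?_⟩ <;> rw [l1, l2] <;>
        simp only [map_add, map_mul, map_sub, map_zero, map_neg] at f1 f2 ⊢
      · linear_combination (-f b2) * f1 + f b1 * f2
      · linear_combination f a2 * f1 - f a1 * f2
    rcases m with m | m
    · refine Or.inr (Or.inr (Or.inl (k1.trans_lt ?_)))
      rw [vB, mul_comm]
      exact mul_lt_mul_of_pos_left m q1
    · refine Or.inr (Or.inr (Or.inr (k2.trans_lt ?_)))
      rw [vC, mul_comm]
      exact mul_lt_mul_of_pos_left m q2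

end Pool.Agent.MP_f3836a_nt.H61
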