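import Pool.Agent.MP_f3836a_nt.H61.Node
import Pool.Agent.MP_f3836a_nt.H61.Emb
import Pool.Agent.MP_f3836a_nt.H61.Tame

/-!
Independent unramified elements in `K₂` of the curves `l ∏ Lᵢ = 1`.
-/

namespace Pool.Agent.MP_f3836a_nt.H61

open NumberField
open scoped Real

lemma reg_scale {u v : ℝ → ℂ} (hu : IsLoop u) (hv : IsLoop v) {s t : ℂ} (hs : s ≠ 0) (ht : t ≠ 0) :
    reg (fun θ => s * u θ) (fun θ => t * v θ) =
      reg u v + Real.log ‖s‖ * wind v - Real.log ‖t‖ * wind u := by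
  rw [reg_mul_left (IsLoop.const hs) hu ((IsLoop.const ht).mul hv), reg_const,
    wind_mul (IsLoop.const ht) hv, wind_const, reg_mul_right (IsLoop.const ht) hv hu,
    reg_anti (fun _ => t) u, reg_const]
  ring

lemma loop_of {k F : Type} [Field k] [Field F] [Algebra k F] [Algebra k ℂ] {x y : F}
    (hg : IntermediateField.adjoin k {x, y} = ⊤) (σ : ℝ → F →ₐ[k] ℂ)
    (hx : ContDiff ℝ 1 fun θ => σ θ x) (hy : ContDiff ℝ 1 fun θ => σ θ y)
    (px : σ (2 * π) x = σ 0 x) (py : σ (2 * π) y = σ 0 y) (f : Fˣ) : IsLoop fun θ => σ θ f := by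
  have : ∀ g ∈ IntermediateField.adjoin k {x, y},
      (ContDiff ℝ 1 fun θ => σ θ g) ∧ σ (2 * π) g = σ 0 g := fun g hg => by
    induction hg using IntermediateField.adjoin_induction with
    | mem g hg => rcases hg with rfl | rfl; exacts [⟨hx, px⟩, ⟨hy, py⟩]
    | algebraMap a => simpa using contDiff_const
    | add g g' _ _ h h' => simpa [h.2, h'.2] using h.1.add h'.1
    | mul g g' _ _ h h' => simpa [h.2, h'.2] using h.1.mul h'.1
    | inv g _ h =>
      by_cases h0 : g = 0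
      · simpa [h0] using contDiff_const
      · simp only [map_inv₀, h.2, and_true]
        exact h.1.inv fun θ => by simpa using h0
  have h := this f (hg ▸ IntermediateField.mem_top)
  exact ⟨h.1, fun θ => by simp, h.2⟩

lemma val_le_one {k F : Type} [Field k] [Field F] [Algebra k F] (O : ValuationSubring F)
    (r : 𝓞 k) : O.valuation (algebraMap k F r) ≤ 1 :=
  (Valuation.integer.integers O.valuation).mem_of_integral
    (r.isIntegral_coe.map (algebraMap k F).toIntAlgHom).tower_top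

theorem main (k : Type) [Field k] [NumberField k] (φ : k →+* ℂ) (n : ℕ)
    (a b c : Fin (n + 1) → 𝓞 k) (hprim : ∀ i, IsCoprime (a i) (b i))
    (hint : ∀ i j, a i * b j ≠ a j * b i →
      ∃ s t : 𝓞 k, a i * s + b i * t + c i = 0 ∧ a j * s + b j * t + c j = 0)
    (h3 : ∀ i j m, i ≠ j → i ≠ m → j ≠ m → ∀ s t : 𝓞 k, a i * s + b i * t + c i = 0 →
      a j * s + b j * t + c j = 0 → a m * s + b m * t + c m ≠ 0)
    (h0 : ∀ i, i ≠ 0 → a 0 * b i ≠ a i * b 0) :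
    ∃ B : ℝ, ∀ l : 𝓞 k, B ≤ ‖φ l‖ → ∀ (F : Type) [Field F] [Algebra k F] (x y : F),
      Algebra.Transcendental k F → IntermediateField.adjoin k {x, y} = ⊤ →
      algebraMap k F l * ∏ i, (algebraMap k F (a i) * x + algebraMap k F (b i) * y +
        algebraMap k F (c i)) = 1 →
      ∃ T : {p : Fin (n + 1) × Fin (n + 1) //
          0 < p.1 ∧ p.1 < p.2 ∧ a p.1 * b p.2 ≠ a p.2 * b p.1} → K2 F,
        LinearIndependent ℤ T ∧ ∀ p (O : ValuationSubring F), T p ∈ unram O := by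
  classical
  set E := {p : Fin (n + 1) × Fin (n + 1) // 0 < p.1 ∧ p.1 < p.2 ∧ a p.1 * b p.2 ≠ a p.2 * b p.1}
  let ψ : 𝓞 k →+* ℂ := φ.comp (algebraMap (𝓞 k) k)
  have ψi : ∀ r, r ≠ 0 → ψ r ≠ 0 := fun r hr => by simpa [ψ] using hr
  have d0 : ∀ e : E, a e.1.1 * b e.1.2 - a e.1.2 * b e.1.1 ≠ 0 := fun e => sub_ne_zero.2 e.2.2.2
  have d1 : ∀ e : E, a e.1.2 * b 0 - a 0 * b e.1.2 ≠ 0 := fun e =>
    sub_ne_zero.2 (h0 _ (e.2.1.trans e.2.2.1).ne').symm
  have d2 : ∀ e : E, a 0 * b e.1.1 - a e.1.1 * b 0 ≠ 0 := fun e => sub_ne_zero.2 (h0 _ e.2.1.ne')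
  choose s t e1 e2 using fun e : E => hint _ _ e.2.2.2
  choose δ δ0 X Y N hN hδ using fun e : E =>
    node (fun i => ψ (a i)) (fun i => ψ (b i)) (fun i => ψ (c i)) e.2.2.1.ne
      (by simpa using ψi _ (d0 e)) (s := ψ (s e)) (t := ψ (t e))
      (by simpa using congrArg ψ (e1 e)) (by simpa using congrArg ψ (e2 e)) fun m m1 m2 => by
        simpa using ψi _ (h3 _ _ m e.2.2.1.ne m1.symm m2.symm _ _ (e1 e) (e2 e))
  let κ1 : E → ℂ := fun e => -ψ (a e.1.2 * b 0 - a 0 * b e.1.2) /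
    ψ (a e.1.1 * b e.1.2 - a e.1.2 * b e.1.1)
  let κ2 : E → ℂ := fun e => -ψ (a 0 * b e.1.1 - a e.1.1 * b 0) /
    ψ (a e.1.1 * b e.1.2 - a e.1.2 * b e.1.1)
  have k1 : ∀ e, κ1 e ≠ 0 := fun e => div_ne_zero (neg_ne_zero.2 (ψi _ (d1 e))) (ψi _ (d0 e))
  have k2 : ∀ e, κ2 e ≠ 0 := fun e => div_ne_zero (neg_ne_zero.2 (ψi _ (d2 e))) (ψi _ (d0 e))
  have fU := fun e e' : E => (IsFam.const (k1 e')).mul ((hN e e'.1.1).mul (hN e 0).inv)
  have fV := fun e e' : E => (IsFam.const (k2 e')).mul ((hN e e'.1.2).mul (hN e 0).inv)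
  choose K hK using fun p : E × E => (fU p.1 p.2).bound (fV p.1 p.2)
  obtain ⟨K0, hK0⟩ := Finite.exists_le K
  obtain ⟨B0, hB0⟩ := Finite.exists_le fun e => (δ e)⁻¹
  refine ⟨max B0 (Real.exp (Fintype.card E * K0 / (2 * π) + 1)),
    fun l hl F _ _ x y ht hg hrel => ?_⟩
  let f : 𝓞 k →+* F := (algebraMap k F).comp (algebraMap (𝓞 k) k)
  have fi : ∀ r, r ≠ 0 → f r ≠ 0 := fun r hr => by simpa [f] using hr
  let L : Fin (n + 1) → F := fun i => f (a i) * x + f (b i) * y + f (c i)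
  have hrel' : f l * ∏ i, L i = 1 := hrel
  have L0 : ∀ i, L i ≠ 0 := fun i h => by
    rw [Finset.prod_eq_zero (Finset.mem_univ i) h] at hrel'; simp at hrel'
  let u : E → Fˣ := fun e => Units.mk0 (-(f (a e.1.2 * b 0 - a 0 * b e.1.2) * L e.1.1) /
    (f (a e.1.1 * b e.1.2 - a e.1.2 * b e.1.1) * L 0)) (div_ne_zero (neg_ne_zero.2
      (mul_ne_zero (fi _ (d1 e)) (L0 _))) (mul_ne_zero (fi _ (d0 e)) (L0 _)))
  let w : E → Fˣ := fun e => Units.mk0 (-(f (a 0 * b e.1.1 - a e.1.1 * b 0) * L e.1.2) /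
    (f (a e.1.1 * b e.1.2 - a e.1.2 * b e.1.1) * L 0)) (div_ne_zero (neg_ne_zero.2
      (mul_ne_zero (fi _ (d2 e)) (L0 _))) (mul_ne_zero (fi _ (d0 e)) (L0 _)))
  refine ⟨fun e => sym (u e) (w e), ?_, fun e O => ?_⟩
  swap
  · refine triangle O (mul_ne_zero (fi _ (d0 e)) (L0 _)) _ _ rfl rfl (cond O.valuation f
      (val_le_one O) (hprim _) (hprim _) (fi _ (d0 e)) (fi _ (d1 e)) (fi _ (d2 e))
      (hint _ _ e.2.2.2) (hint _ _ (h0 _ (e.2.1.trans e.2.2.1).ne')) (hint _ _ (h0 _ e.2.1.ne'))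
      rfl rfl rfl (fun hx hy => ?_) rfl rfl rfl)
    have a1 : ∀ i, O.valuation (L i) ≤ 1 := fun i =>
      O.valuation.map_add_le (O.valuation.map_add_le
        (by rw [map_mul]; exact mul_le_one' (val_le_one O _) hx)
        (by rw [map_mul]; exact mul_le_one' (val_le_one O _) hy)) (val_le_one O _)
    have a2 : ∀ i, O.valuation (L i) = 1 := fun i => le_antisymm (a1 i) (by
      have := congrArg O.valuation hrel'
      rw [← Finset.mul_prod_erase _ _ (Finset.mem_univ i), map_mul, map_mul, map_prod, map_one,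
        mul_left_comm] at this
      rw [← this]
      exact mul_le_of_le_one_right' (mul_le_one' (val_le_one O _)
        (Finset.prod_le_one' fun m _ => a1 m)))
    exact ⟨a2 _, a2 _, a2 _⟩
  have l1 : 0 < ‖ψ l‖ := (Real.exp_pos _).trans_le ((le_max_right _ _).trans hl)
  have l0 : ψ l ≠ 0 := norm_pos_iff.1 l1
  have hτ : ∀ e, ‖(ψ l)⁻¹‖ ≤ δ e := fun e => by
    rw [norm_inv]
    exact inv_le_of_inv_le₀ (δ0 e) ((hB0 e).trans ((le_max_left _ _).trans hl))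
  let _ := φ.toAlgebra
  have key : ∀ e : E, ∃ ρ : K2 F →+ ℝ, ∀ e', |ρ (sym (u e') (w e')) -
      if e' = e then 2 * π * Real.log ‖ψ l‖ else 0| ≤ K0 := fun e => by
    obtain ⟨c1, c2, c3, c4, c5, c6, c7, c8⟩ := hδ e _ (hτ e)
    choose σ σx σy using fun θ => emb (k := k) (K := F) (K' := ℂ) (n := n)
      (by rintro rfl; exact absurd e.2.1 (by simp [Fin.eq_zero e.1.1]))
      (a := fun i => a i) (b := fun i => b i) (c := fun i => c i) (l := l)
      ((hprim 0).map (algebraMap (𝓞 k) k)) (fun i h => h0 i.succ (Fin.succ_ne_zero i) (by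
        exact_mod_cast h)) hrel (x' := X e ((ψ l)⁻¹, θ)) (y' := Y e ((ψ l)⁻¹, θ))
      ((congrArg (ψ l * ·) (c6 θ)).trans (mul_inv_cancel₀ l0)) ht (fun ⟨a1, a2⟩ => c7 θ (by
        have : IsAlgebraic k (algebraMap k ℂ (a e.1.1) * X e ((ψ l)⁻¹, θ) +
            algebraMap k ℂ (b e.1.1) * Y e ((ψ l)⁻¹, θ) + algebraMap k ℂ (c e.1.1)) :=
          (((isAlgebraic_algebraMap _).mul a1).add ((isAlgebraic_algebraMap _).mul a2)).add
            (isAlgebraic_algebraMap _)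
        exact this.restrictScalars ℚ)) hg
    obtain ⟨ρ, hρ⟩ := exists_reg (fun θ => (σ θ).toRingHom) (loop_of hg σ
      (by simpa only [σx] using c1) (by simpa only [σy] using c2) (by rw [σx, σx, c3])
      (by rw [σy, σy, c4]))
    refine ⟨ρ, fun e' => ?_⟩
    have σf : ∀ θ r, σ θ (f r) = ψ r := fun θ r => (σ θ).commutes _
    have σL : ∀ θ m, σ θ (L m) = (if m = e.1.2 then (ψ l)⁻¹ else 1) * N e m ((ψ l)⁻¹, θ) :=
      fun θ m => by simp only [L, map_add, map_mul, σf, σx, σy, c5]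
    have n0 : (0 : Fin (n + 1)) ≠ e.1.2 := (e.2.1.trans e.2.2.1).ne
    have ε0 : ∀ m, (if m = e.1.2 then (ψ l)⁻¹ else 1) ≠ 0 := fun m => by
      split_ifs; exacts [inv_ne_zero l0, one_ne_zero]
    have eu : (fun θ => (σ θ).toRingHom (u e')) = fun θ => (if e'.1.1 = e.1.2 then (ψ l)⁻¹ else 1) *
        (κ1 e' * (N e e'.1.1 ((ψ l)⁻¹, θ) * (N e 0 ((ψ l)⁻¹, θ))⁻¹)) := funext fun θ => by
      simp only [u, κ1, Units.val_mk0, AlgHom.toRingHom_eq_coe, RingHom.coe_coe, map_div₀, map_neg,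
        map_mul (σ θ), σf, σL, if_neg n0]
      ring
    have ew : (fun θ => (σ θ).toRingHom (w e')) = fun θ => (if e'.1.2 = e.1.2 then (ψ l)⁻¹ else 1) *
        (κ2 e' * (N e e'.1.2 ((ψ l)⁻¹, θ) * (N e 0 ((ψ l)⁻¹, θ))⁻¹)) := funext fun θ => by
      simp only [w, κ2, Units.val_mk0, AlgHom.toRingHom_eq_coe, RingHom.coe_coe, map_div₀, map_neg,
        map_mul (σ θ), σf, σL, if_neg n0]
      ring
    have wd : ∀ (κ : ℂ) m, κ ≠ 0 → m ≠ e.1.2 → wind (fun θ => κ * (N e m ((ψ l)⁻¹, θ) *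
        (N e 0 ((ψ l)⁻¹, θ))⁻¹)) = if m = e.1.1 then 2 * π else 0 := fun κ m hκ hm => by
      have a1 := (hN e m).loop (hτ e)
      have a2 := (hN e 0).loop (hτ e)
      rw [wind_mul (IsLoop.const hκ) (a1.mul a2.inv), wind_mul a1 a2.inv, wind_inv a2, wind_const,
        c8 m hm, c8 0 n0, if_neg e.2.1.ne]
      ring
    rw [hρ, eu, ew, reg_scale ((fU e e').loop (hτ e)) ((fV e e').loop (hτ e)) (ε0 _) (ε0 _)]
    refine le_trans (le_of_eq (congrArg _ ?_)) ((hK (e, e') _ (hτ e)).trans (hK0 _))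
    rw [add_sub_assoc, add_sub_assoc, add_eq_left, sub_eq_zero]
    by_cases b1 : e'.1.1 = e.1.2
    · have b2 : e.1.2 < e'.1.2 := b1 ▸ e'.2.2.1
      rw [wd _ _ (k2 e') b2.ne', if_neg (e.2.2.1.trans b2).ne', if_neg b2.ne',
        if_neg fun h : e' = e => b2.ne (by rw [h])]
      simp
    · by_cases b2 : e'.1.2 = e.1.2
      · rw [wd _ _ (k1 e') b1, if_neg b1, if_pos b2, norm_inv, Real.log_inv]
        by_cases b3 : e'.1.1 = e.1.1
        · rw [if_pos b3, if_pos (Subtype.ext (Prod.ext b3 b2))]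
          simp [mul_comm]
        · rw [if_neg b3, if_neg fun h : e' = e => b3 (by rw [h])]
          simp
      · rw [if_neg b1, if_neg b2, if_neg fun h : e' = e => b2 (by rw [h])]
        simp
  choose ρ hρ using key
  refine dominant _ ρ hρ ?_
  have := (Real.le_log_iff_exp_le l1).2 ((le_max_right _ _).trans hl)
  rw [← div_lt_iff₀' Real.two_pi_pos]
  linarith

end Pool.Agent.MP_f3836a_nt.H61
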