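import Pool.Agent.MP_f3836a_nt.H61.Reg

/-!
The vanishing cycle near a node of a line arrangement.
-/

namespace Pool.Agent.MP_f3836a_nt.H61

open Complex Filter Topology
open scoped Real

lemma exists_trans {ε : ℝ} (hε : 0 < ε) :
    ∃ r : ℝ, 0 < r ∧ r < ε ∧ ∀ θ, Transcendental ℚ (circleMap 0 r θ) := by
  obtain ⟨r, h1, h2⟩ : ∃ r ∈ Set.Ioo 0 ε, ¬IsAlgebraic ℚ r := by
    by_contra h
    push Not at h
    have := (Algebraic.countable ℚ ℝ).mono h
    exact absurd (this.measure_zero MeasureTheory.volume) (by simpa using hε)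
  refine ⟨r, h1.1, h1.2, fun θ h => h2 ?_⟩
  have h3 : IsAlgebraic ℚ (circleMap 0 r θ * (starRingEnd ℂ) (circleMap 0 r θ)) :=
    h.mul (h.algHom ((starRingEnd ℂ).toRatAlgHom))
  rw [mul_conj, normSq_eq_norm_sq, norm_circleMap_zero, sq_abs] at h3
  exact IsAlgebraic.of_pow two_pos
    ((isAlgebraic_algebraMap_iff (algebraMap ℝ ℂ).injective).1 h3)

lemma exists_branch {U : ℂ × ℂ → ℂ} (hU : ContDiff ℂ 1 U) (h0 : U 0 ≠ 0) :
    ∃ Ψ : ℂ × ℂ → ℂ × ℂ, Ψ 0 = 0 ∧ ∀ᶠ q in 𝓝 0, ContDiffAt ℂ 1 Ψ q ∧ (Ψ q).1 = q.1 ∧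
      (Ψ q).2 * U (Ψ q) = q.2 := by
  have h1 : ContDiffAt ℂ 1 (fun z : ℂ × ℂ => (z.1, z.2 * U z)) 0 :=
    (contDiff_fst.prodMk (contDiff_snd.mul hU)).contDiffAt
  let e : (ℂ × ℂ) ≃L[ℂ] ℂ × ℂ := (ContinuousLinearEquiv.refl ℂ ℂ).prodCongr
    (ContinuousLinearEquiv.unitsEquivAut ℂ (Units.mk0 _ h0))
  have h2 : HasFDerivAt (fun z : ℂ × ℂ => (z.1, z.2 * U z)) (e : ℂ × ℂ →L[ℂ] ℂ × ℂ) 0 := by
    refine (hasFDerivAt_fst.prodMk (hasFDerivAt_snd.fun_mul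
      (hU.differentiable one_ne_zero 0).hasFDerivAt)).congr_fderiv ?_
    ext <;> simp [e]
  have h3 := h1.localInverse_apply_image h2 one_ne_zero
  have h4 := (h1.to_localInverse h2 one_ne_zero).eventually (by simp)
  have h5 := (h1.hasStrictFDerivAt' h2 one_ne_zero).eventually_right_inverse
  simp only [Prod.fst_zero, Prod.snd_zero, zero_mul, Prod.mk_zero_zero] at h3 h4 h5
  refine ⟨_, h3, ?_⟩
  filter_upwards [h4, h5] with q a b
  exact ⟨a, (Prod.ext_iff.1 b).1, (Prod.ext_iff.1 b).2⟩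

theorem node {ι : Type} [Fintype ι] [DecidableEq ι] (a b c : ι → ℂ) {j k : ι} (hjk : j ≠ k)
    (hd : a j * b k - a k * b j ≠ 0) {s t : ℂ} (e1 : a j * s + b j * t + c j = 0)
    (e2 : a k * s + b k * t + c k = 0) (e3 : ∀ m, m ≠ j → m ≠ k → a m * s + b m * t + c m ≠ 0) :
    ∃ δ > 0, ∃ (X Y : ℂ × ℝ → ℂ) (N : ι → ℂ × ℝ → ℂ), (∀ m, IsFam δ (N m)) ∧ ∀ τ, ‖τ‖ ≤ δ →
      (ContDiff ℝ 1 fun θ => X (τ, θ)) ∧ (ContDiff ℝ 1 fun θ => Y (τ, θ)) ∧
      X (τ, 2 * π) = X (τ, 0) ∧ Y (τ, 2 * π) = Y (τ, 0) ∧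
      (∀ θ m, a m * X (τ, θ) + b m * Y (τ, θ) + c m = (if m = k then τ else 1) * N m (τ, θ)) ∧
      (∀ θ, ∏ m, (a m * X (τ, θ) + b m * Y (τ, θ) + c m) = τ) ∧
      (∀ θ, Transcendental ℚ (a j * X (τ, θ) + b j * Y (τ, θ) + c j)) ∧
      ∀ m, m ≠ k → wind (fun θ => N m (τ, θ)) = if m = j then 2 * π else 0 := by
  let x : ℂ × ℂ → ℂ := fun z => s + (b k * z.1 - b j * z.2) / (a j * b k - a k * b j)
  let y : ℂ × ℂ → ℂ := fun z => t + (a j * z.2 - a k * z.1) / (a j * b k - a k * b j)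
  let l : ι → ℂ × ℂ → ℂ := fun m z => a m * x z + b m * y z + c m
  have cx : ContDiff ℂ 1 x := by fun_prop
  have cy : ContDiff ℂ 1 y := by fun_prop
  have cl : ∀ m, ContDiff ℂ 1 (l m) := fun m => by fun_prop
  have lj : ∀ z, l j z = z.1 := fun z => by
    simp only [l, x, y, div_eq_mul_inv]
    linear_combination e1 + z.1 * mul_inv_cancel₀ hd
  have lk : ∀ z, l k z = z.2 := fun z => by
    simp only [l, x, y, div_eq_mul_inv]
    linear_combination e2 + z.2 * mul_inv_cancel₀ hd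
  have l0 : ∀ m, l m 0 = a m * s + b m * t + c m := fun m => by simp [l, x, y]
  obtain ⟨Ψ, Ψ0, hΨ⟩ := exists_branch (U := fun z => ∏ m ∈ (Finset.univ.erase k).erase j, l m z)
    (contDiff_prod fun m _ => cl m) (Finset.prod_ne_zero_iff.2 fun m hm => by
      simp only [Finset.mem_erase] at hm
      rw [l0]; exact e3 m hm.1 hm.2.1)
  have hn : ∀ᶠ q in 𝓝 (0 : ℂ × ℂ), ∀ m, m ≠ j → m ≠ k → ‖l m (Ψ q) / l m 0 - 1‖ < 1 := by
    refine eventually_all.2 fun m => ?_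
    by_cases hm : m ≠ j ∧ m ≠ k
    · have : ContinuousAt (fun q => ‖l m (Ψ q) / l m 0 - 1‖) 0 :=
        ((((cl m).continuous.continuousAt.comp hΨ.self_of_nhds.1.continuousAt).div_const _).sub
          continuousAt_const).norm
      filter_upwards [this.eventually_lt continuousAt_const (show _ < (1 : ℝ) by
        simp [Ψ0, l0, e3 m hm.1 hm.2])] with q hq _ _ using hq
    · exact Eventually.of_forall fun q h1 h2 => absurd ⟨h1, h2⟩ hm
  obtain ⟨ε, hε, hb⟩ := Metric.eventually_nhds_iff.1 (hΨ.and hn)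
  obtain ⟨r, r0, r1, rt⟩ := exists_trans hε
  let Q : ℂ × ℝ → ℂ × ℂ := fun p => (circleMap 0 r p.2, p.1 / circleMap 0 r p.2)
  have cn : ∀ θ, circleMap 0 r θ ≠ 0 := fun θ => circleMap_ne_center r0.ne'
  have cQ : ContDiff ℝ 1 Q := ((contDiff_circleMap 0 r).comp contDiff_snd).prodMk
    (contDiff_fst.mul (((contDiff_circleMap 0 r).comp contDiff_snd).inv fun p => cn _))
  have hQ : ∀ p : ℂ × ℝ, ‖p.1‖ ≤ r * ε / 2 → dist (Q p) 0 < ε := fun p hp => by
    rw [dist_zero_right, Prod.norm_def, max_lt_iff]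
    simp only [Q, norm_div, norm_circleMap_zero, abs_of_pos r0]
    exact ⟨r1, by rw [div_lt_iff₀ r0]; nlinarith⟩
  have pQ : ∀ τ, Q (τ, 2 * π) = Q (τ, 0) := fun τ => by
    have := periodic_circleMap 0 r 0
    rw [zero_add] at this
    simp only [Q, this]
  have cZ : ∀ {g : ℂ × ℂ → ℂ}, ContDiff ℂ 1 g → ∀ p : ℂ × ℝ, ‖p.1‖ ≤ r * ε / 2 →
      ContDiffAt ℝ 1 (fun p => g (Ψ (Q p))) p := fun hg p hp =>
    ((hg.contDiffAt.comp _ (hb (hQ p hp)).1.1).restrict_scalars ℝ).comp p cQ.contDiffAt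
  have zj : ∀ p : ℂ × ℝ, ‖p.1‖ ≤ r * ε / 2 → l j (Ψ (Q p)) = circleMap 0 r p.2 := fun p hp => by
    rw [lj, (hb (hQ p hp)).1.2.1]
  have fam : ∀ m, m ≠ k → IsFam (r * ε / 2) fun p => l m (Ψ (Q p)) := fun m hm =>
    ⟨cZ (cl m), fun p hp => by
      by_cases h : m = j
      · rw [h, zj p hp]; exact cn _
      · intro e
        simpa [e] using (hb (hQ p hp)).2 m h hm, fun τ => by rw [pQ]⟩
  have famk := IsFam.prod (Finset.univ.erase k) fun m hm => fam m (Finset.ne_of_mem_erase hm)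
  have hp : ∀ p : ℂ × ℝ, ‖p.1‖ ≤ r * ε / 2 →
      l k (Ψ (Q p)) * ∏ m ∈ Finset.univ.erase k, l m (Ψ (Q p)) = p.1 := fun p hp => by
    rw [← Finset.mul_prod_erase _ _ (show j ∈ Finset.univ.erase k by simp [hjk]), zj p hp, lk,
      mul_left_comm, (hb (hQ p hp)).1.2.2, mul_div_cancel₀ _ (cn _)]
  refine ⟨r * ε / 2, by positivity, fun p => x (Ψ (Q p)), fun p => y (Ψ (Q p)),
    fun m p => if m = k then (∏ m ∈ Finset.univ.erase k, l m (Ψ (Q p)))⁻¹ else l m (Ψ (Q p)),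
    fun m => ?_, fun τ hτ => ⟨contDiff_iff_contDiffAt.2 fun θ => (cZ cx (τ, θ) hτ).comp θ
      (contDiffAt_const.prodMk contDiffAt_id), contDiff_iff_contDiffAt.2 fun θ =>
      (cZ cy (τ, θ) hτ).comp θ (contDiffAt_const.prodMk contDiffAt_id), by simp only [pQ],
      by simp only [pQ], fun θ m => ?_, fun θ => ?_, fun θ => ?_, fun m hm => ?_⟩⟩
  · by_cases h : m = k
    · simpa only [if_pos h] using famk.inv
    · simpa only [if_neg h] using fam m h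
  · by_cases h : m = k
    · simp only [if_pos h]
      rw [h, ← div_eq_mul_inv, eq_div_iff (famk.ne (τ, θ) hτ)]
      exact hp (τ, θ) hτ
    · simp only [if_neg h, one_mul, l]
  · rw [← Finset.mul_prod_erase _ _ (Finset.mem_univ k)]
    exact hp (τ, θ) hτ
  · change Transcendental ℚ (l j (Ψ (Q (τ, θ))))
    rw [zj _ hτ]
    exact rt θ
  · simp only [if_neg hm]
    split_ifs with h
    · rw [h, ← wind_circle r0.ne']
      exact congrArg wind (funext fun θ => zj (τ, θ) hτ)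
    · exact wind_slit ((fam m hm).loop hτ) fun θ => (hb (hQ (τ, θ) hτ)).2 m h hm

lemma dominant {E M : Type} [Fintype E] [DecidableEq E] [AddCommGroup M] (T : E → M)
    (ρ : E → M →+ ℝ) {K Λ : ℝ} (h : ∀ e e', |ρ e (T e') - if e' = e then Λ else 0| ≤ K)
    (hK : Fintype.card E * K < Λ) : LinearIndependent ℤ T := by
  refine Fintype.linearIndependent_iff.2 fun g hg e => ?_
  obtain ⟨e0, -, h0⟩ := Finset.exists_max_image Finset.univ (fun e => |(g e : ℝ)|)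
    ⟨e, Finset.mem_univ _⟩
  have K0 : 0 ≤ K := (abs_nonneg _).trans (h e e)
  have h1 : (g e0 : ℝ) * Λ = -∑ e', g e' * (ρ e0 (T e') - if e' = e0 then Λ else 0) := by
    have := congrArg (ρ e0) hg
    simp only [map_sum, map_zsmul, zsmul_eq_mul, map_zero] at this
    simp [mul_sub, Finset.sum_sub_distrib, this]
  have h2 : |(g e0 : ℝ)| * |Λ| ≤ Fintype.card E * (|(g e0 : ℝ)| * K) := by
    rw [← abs_mul, h1, abs_neg, ← nsmul_eq_mul, ← Finset.card_univ]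
    refine (Finset.abs_sum_le_sum_abs _ _).trans (Finset.sum_le_card_nsmul _ _ _ fun e' _ => ?_)
    rw [abs_mul]
    exact mul_le_mul (h0 e' (Finset.mem_univ _)) (h e0 e') (abs_nonneg _) (abs_nonneg _)
  have h3 : |(g e0 : ℝ)| ≤ 0 := by
    by_contra h4
    have := le_abs_self Λ
    nlinarith [not_le.1 h4]
  exact_mod_cast abs_nonpos_iff.1 ((h0 e (Finset.mem_univ _)).trans h3)

end Pool.Agent.MP_f3836a_nt.H61
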