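import Pool.Agent.MP_f3836a_nt.H61.Defs

/-!
The real regulator pairing on loops in `ℂˣ`.
-/

namespace Pool.Agent.MP_f3836a_nt.H61

open Complex Filter Topology
open scoped Real

/-- the one-form whose primitive is the Bloch-Wigner function -/
noncomputable def eta (z h : ℂ) : ℝ :=
  Real.log ‖z‖ * (-h / (1 - z)).im - Real.log ‖1 - z‖ * (h / z).im

lemma hasDerivAt_im {u : ℝ → ℂ} {u' : ℂ} {θ : ℝ} (h : HasDerivAt u u' θ) :
    HasDerivAt (fun t => (u t).im) u'.im θ := imCLM.hasFDerivAt.comp_hasDerivAt θ h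

lemma hasDerivAt_lg {u : ℝ → ℂ} {u' : ℂ} {θ : ℝ} (h : HasDerivAt u u' θ) (h0 : u θ ≠ 0) :
    HasDerivAt (fun t => Real.log ‖u t‖) (u' / u θ).re θ := by
  have h1 := (h.div_const (u θ)).clog_real (by simp [h0])
  have h2 : HasDerivAt (fun t => (log (u t / u θ)).re) _ θ :=
    reCLM.hasFDerivAt.comp_hasDerivAt θ h1
  refine ((h2.add_const (Real.log ‖u θ‖)).congr_of_eventuallyEq ?_).congr_deriv (by simp [h0])
  filter_upwards [h.continuousAt.eventually_ne h0] with t ht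
  rw [log_re, norm_div, Real.log_div (by simpa using ht) (by simpa using h0)]
  ring

lemma exists_half : ∃ D : ℂ → ℝ, D (1 / 2) = 0 ∧ ∀ (u : ℝ → ℂ) (u' : ℂ) (θ : ℝ),
    HasDerivAt u u' θ → (u θ).re < 1 → u θ ≠ 0 →
      HasDerivAt (fun t => D (u t)) (eta (u θ) u') θ := by
  have ho : IsOpen {z : ℂ | z.re < 1} := isOpen_lt continuous_re continuous_const
  have hs : ∀ z : ℂ, z.re < 1 → 1 - z ∈ slitPlane := fun z hz => Or.inl (by simpa using hz)
  obtain ⟨G, hG⟩ := (convex_halfSpace_re_lt 1).exists_forall_hasDerivWithinAt (𝕜 := ℂ)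
    (f := dslope (fun z => log (1 - z)) 0) ((differentiableOn_dslope (ho.mem_nhds (by simp))).2
      fun z hz => (((differentiableAt_const _).sub differentiableAt_id).clog
        (hs z hz)).differentiableWithinAt)
  refine ⟨fun z => (G (1 / 2)).im - (G z).im + (log (1 - z)).im * Real.log ‖z‖, ?_,
    fun u u' θ h h1 h0 => ?_⟩
  · have : (1 - 1 / 2 : ℂ) = ((1 / 2 : ℝ) : ℂ) := by push_cast; ring
    simp only [this, log_im, arg_ofReal_of_nonneg (show (0 : ℝ) ≤ 1 / 2 by norm_num)]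
    simp
  · have a1 := hasDerivAt_im (((hG _ h1).hasDerivAt (ho.mem_nhds h1)).comp_of_eq θ h rfl)
    have a2 := hasDerivAt_im ((h.const_sub 1).clog_real (hs _ h1))
    refine ((a1.const_sub _).add (a2.mul (hasDerivAt_lg h h0))).congr_deriv ?_
    rw [dslope_of_ne _ h0, slope_def_field, eta, ← log_re (1 - u θ)]
    simp only [sub_zero, log_one]
    rw [show log (1 - u θ) / u θ * u' = log (1 - u θ) * (u' / u θ) by ring, mul_im]
    ring

lemma eta_one_sub (z h : ℂ) : eta (1 - z) (-h) = -eta z h := by simp [eta]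

lemma exists_dilog : ∃ D : ℂ → ℝ, ∀ (u : ℝ → ℂ) (u' : ℂ) (θ : ℝ),
    HasDerivAt u u' θ → u θ ≠ 0 → 1 - u θ ≠ 0 →
      HasDerivAt (fun t => D (u t)) (eta (u θ) u') θ := by
  obtain ⟨D, h0, hD⟩ := exists_half
  have hD' : ∀ (u : ℝ → ℂ) (u' : ℂ) (θ : ℝ), HasDerivAt u u' θ → 0 < (u θ).re → 1 - u θ ≠ 0 →
      HasDerivAt (fun t => -D (1 - u t)) (eta (u θ) u') θ := fun u u' θ h h1 h2 => by
    have := (hD _ _ θ (h.const_sub 1) (by simpa using h1) h2).neg
    rwa [eta_one_sub, neg_neg] at this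
  have hs : ∀ z : ℂ, 0 < z.re → z.re < 1 → D z = -D (1 - z) := fun z a b => by
    have p : ∀ t : ℝ, HasDerivAt (fun t : ℝ => (1 / 2 : ℂ) + t * (z - 1 / 2)) (z - 1 / 2) t :=
      fun t => (((ofRealCLM.hasDerivAt (x := t)).mul_const (z - 1 / 2)).const_add
        (1 / 2)).congr_deriv (by simp)
    have q : ∀ t ∈ Set.Icc (0 : ℝ) 1, HasDerivAt (fun t : ℝ => D (1 / 2 + t * (z - 1 / 2)) -
        -D (1 - (1 / 2 + t * (z - 1 / 2)))) 0 t := fun t ht => by
      have r : ((1 / 2 : ℂ) + t * (z - 1 / 2)).re = 1 / 2 + t * (z.re - 1 / 2) := by simp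
      have r0 : 0 < ((1 / 2 : ℂ) + t * (z - 1 / 2)).re := by rw [r]; nlinarith [ht.1, ht.2]
      have r1 : ((1 / 2 : ℂ) + t * (z - 1 / 2)).re < 1 := by rw [r]; nlinarith [ht.1, ht.2]
      have := (hD _ _ t (p t) r1 (fun e => by rw [e] at r0; simp at r0)).sub
        (hD' _ _ t (p t) r0 (fun e => by rw [← sub_eq_zero.1 e] at r1; simp at r1))
      rwa [sub_self] at this
    have := constant_of_has_deriv_right_zero
      (fun t ht => (q t ht).continuousAt.continuousWithinAt)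
      (fun t ht => (q t (Set.Ico_subset_Icc_self ht)).hasDerivWithinAt) 1 (by simp)
    simp only [ofReal_one, one_mul, add_sub_cancel, ofReal_zero, zero_mul, add_zero,
      show (1 - 1 / 2 : ℂ) = 1 / 2 by ring, h0] at this
    linarith
  refine ⟨fun z => if z.re < 1 then D z else -D (1 - z), fun u u' θ h a b => ?_⟩
  have c : ContinuousAt (fun t => (u t).re) θ := continuous_re.continuousAt.comp h.continuousAt
  by_cases h1 : (u θ).re < 1
  · refine (hD u u' θ h h1 a).congr_of_eventuallyEq ?_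
    filter_upwards [c.eventually_lt continuousAt_const h1] with t ht
    rw [if_pos ht]
  · have h2 : 0 < (u θ).re := by linarith [not_lt.1 h1]
    refine (hD' u u' θ h h2 b).congr_of_eventuallyEq ?_
    filter_upwards [continuousAt_const.eventually_lt c h2] with t ht
    split_ifs with h3
    · exact hs _ ht h3
    · rfl

/-- a continuously differentiable loop in `ℂˣ` -/
structure IsLoop (u : ℝ → ℂ) : Prop where
  sm : ContDiff ℝ 1 u
  ne : ∀ θ, u θ ≠ 0
  per : u (2 * π) = u 0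

/-- logarithm of the modulus -/
noncomputable def lg (u : ℝ → ℂ) (θ : ℝ) : ℝ := Real.log ‖u θ‖

/-- derivative of the argument -/
noncomputable def dl (u : ℝ → ℂ) (θ : ℝ) : ℝ := (deriv u θ / u θ).im

/-- the regulator pairing -/
noncomputable def reg (u v : ℝ → ℂ) : ℝ := ∫ θ in (0 : ℝ)..2 * π, lg u θ * dl v θ - lg v θ * dl u θ

/-- `2 π` times the winding number -/
noncomputable def wind (u : ℝ → ℂ) : ℝ := ∫ θ in (0 : ℝ)..2 * π, dl u θ

variable {u u' v : ℝ → ℂ}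

lemma IsLoop.der (h : IsLoop u) (θ : ℝ) : HasDerivAt u (deriv u θ) θ :=
  (h.sm.differentiable one_ne_zero θ).hasDerivAt

lemma IsLoop.clg (h : IsLoop u) : Continuous (lg u) :=
  h.sm.continuous.norm.log fun θ => norm_ne_zero_iff.2 (h.ne θ)

lemma IsLoop.cdl (h : IsLoop u) : Continuous (dl u) :=
  continuous_im.comp (h.sm.continuous_deriv_one.div h.sm.continuous h.ne)

lemma IsLoop.int (h : IsLoop u) (hv : IsLoop v) : IntervalIntegrable
    (fun θ => lg u θ * dl v θ - lg v θ * dl u θ) MeasureTheory.volume 0 (2 * π) :=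
  ((h.clg.mul hv.cdl).sub (hv.clg.mul h.cdl)).intervalIntegrable _ _

lemma IsLoop.mul (h : IsLoop u) (h' : IsLoop u') : IsLoop fun θ => u θ * u' θ :=
  ⟨h.sm.mul h'.sm, fun θ => mul_ne_zero (h.ne θ) (h'.ne θ), by rw [h.per, h'.per]⟩

lemma IsLoop.inv (h : IsLoop u) : IsLoop fun θ => (u θ)⁻¹ :=
  ⟨h.sm.inv h.ne, fun θ => inv_ne_zero (h.ne θ), by rw [h.per]⟩

lemma IsLoop.const {c : ℂ} (hc : c ≠ 0) : IsLoop fun _ => c := ⟨contDiff_const, fun _ => hc, rfl⟩

lemma lg_mul (h : IsLoop u) (h' : IsLoop u') (θ : ℝ) :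
    lg (fun θ => u θ * u' θ) θ = lg u θ + lg u' θ := by
  rw [lg, norm_mul, Real.log_mul (norm_ne_zero_iff.2 (h.ne θ)) (norm_ne_zero_iff.2 (h'.ne θ))]; rfl

lemma dl_mul (h : IsLoop u) (h' : IsLoop u') (θ : ℝ) :
    dl (fun θ => u θ * u' θ) θ = dl u θ + dl u' θ := by
  have := h.ne θ
  have := h'.ne θ
  rw [dl, ((h.der θ).fun_mul (h'.der θ)).deriv, dl, dl, ← add_im]
  congr 1
  field_simp

lemma reg_anti (u v : ℝ → ℂ) : reg v u = -reg u v := by
  rw [reg, reg, ← intervalIntegral.integral_neg]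
  simp only [neg_sub]

lemma reg_mul_left (h : IsLoop u) (h' : IsLoop u') (hv : IsLoop v) :
    reg (fun θ => u θ * u' θ) v = reg u v + reg u' v := by
  rw [reg, reg, reg, ← intervalIntegral.integral_add (h.int hv) (h'.int hv)]
  refine intervalIntegral.integral_congr fun θ _ => ?_
  simp only [lg_mul h h', dl_mul h h']
  ring

lemma reg_mul_right (h : IsLoop u) (h' : IsLoop u') (hv : IsLoop v) :
    reg v (fun θ => u θ * u' θ) = reg v u + reg v u' := by
  rw [reg_anti, reg_mul_left h h' hv, reg_anti u, reg_anti u']; ring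

lemma reg_const (c : ℂ) (v : ℝ → ℂ) : reg (fun _ => c) v = Real.log ‖c‖ * wind v := by
  simp [reg, wind, lg, dl]

lemma wind_const (c : ℂ) : wind (fun _ => c) = 0 := by simp [wind, dl]

lemma wind_mul (h : IsLoop u) (h' : IsLoop u') : wind (fun θ => u θ * u' θ) = wind u + wind u' := by
  rw [wind, wind, wind, ← intervalIntegral.integral_add (h.cdl.intervalIntegrable _ _)
    (h'.cdl.intervalIntegrable _ _)]
  simp only [dl_mul h h']

lemma wind_inv (h : IsLoop u) : wind (fun θ => (u θ)⁻¹) = -wind u := by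
  have := wind_mul h h.inv
  simp only [fun θ => mul_inv_cancel₀ (h.ne θ), wind_const] at this
  linarith

lemma reg_st (h : IsLoop u) (hv : IsLoop v) (e : ∀ θ, u θ + v θ = 1) : reg u v = 0 := by
  obtain ⟨D, hD⟩ := exists_dilog
  have e1 : v = fun θ => 1 - u θ := funext fun θ => eq_sub_of_add_eq' (e θ)
  rw [reg, intervalIntegral.integral_eq_sub_of_hasDerivAt (f := fun t => D (u t)) (fun θ _ => ?_)
    (h.int hv), h.per, sub_self]
  refine (hD u _ θ (h.der θ) (h.ne θ) (by simpa [e1] using hv.ne θ)).congr_deriv ?_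
  simp only [eta, lg, dl, e1, ((h.der θ).const_sub 1).deriv]

lemma wind_slit (h : IsLoop u) {p : ℂ} (hp : ∀ θ, ‖u θ / p - 1‖ < 1) : wind u = 0 := by
  have p0 : p ≠ 0 := by rintro rfl; simpa using hp 0
  rw [wind, intervalIntegral.integral_eq_sub_of_hasDerivAt (f := fun t => (log (u t / p)).im)
    (fun θ _ => ?_) (h.cdl.intervalIntegrable _ _), h.per, sub_self]
  refine (hasDerivAt_im (((h.der θ).div_const p).clog_real ?_)).congr_deriv ?_
  · simpa using mem_slitPlane_of_norm_lt_one (hp θ)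
  · rw [dl, div_div_div_cancel_right₀ p0]

lemma wind_circle {r : ℝ} (hr : r ≠ 0) : wind (circleMap 0 r) = 2 * π := by
  have : ∀ θ, dl (circleMap 0 r) θ = 1 := fun θ => by
    rw [dl, deriv_circleMap, mul_div_cancel_left₀ _ (circleMap_ne_center hr), I_im]
  simp [wind, this]

/-- the regulator attached to a loop of embeddings -/
theorem exists_reg {F : Type} [Field F] (σ : ℝ → F →+* ℂ)
    (hσ : ∀ f : Fˣ, IsLoop fun θ => σ θ f) :
    ∃ ρ : K2 F →+ ℝ, ∀ a b, ρ (sym a b) = reg (fun θ => σ θ a) fun θ => σ θ b := by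
  refine ⟨QuotientAddGroup.lift _ (FreeAbelianGroup.lift fun p : Fˣ × Fˣ =>
    reg (fun θ => σ θ p.1) fun θ => σ θ p.2) ((AddSubgroup.closure_le _).2 ?_), fun a b =>
      (QuotientAddGroup.lift_mk _ _ _).trans (FreeAbelianGroup.lift_apply_of _ _)⟩
  rintro _ (⟨a, a', b⟩ | ⟨a, b, b'⟩ | ⟨a, b, h⟩) <;>
    simp only [SetLike.mem_coe, AddMonoidHom.mem_ker, map_sub, FreeAbelianGroup.lift_apply_of,
      Units.val_mul, map_mul]
  · rw [reg_mul_left (hσ _) (hσ _) (hσ _)]; ring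
  · rw [reg_mul_right (hσ _) (hσ _) (hσ _)]; ring
  · exact reg_st (hσ a) (hσ b) fun θ => by rw [← map_add, h, map_one]

/-- a family of loops depending on a small complex parameter -/
structure IsFam (δ : ℝ) (u : ℂ × ℝ → ℂ) : Prop where
  sm : ∀ p : ℂ × ℝ, ‖p.1‖ ≤ δ → ContDiffAt ℝ 1 u p
  ne : ∀ p : ℂ × ℝ, ‖p.1‖ ≤ δ → u p ≠ 0
  per : ∀ τ, u (τ, 2 * π) = u (τ, 0)

section Fam

variable {δ : ℝ} {U V : ℂ × ℝ → ℂ}

lemma IsFam.loop (h : IsFam δ U) {τ : ℂ} (hτ : ‖τ‖ ≤ δ) : IsLoop fun θ => U (τ, θ) :=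
  ⟨contDiff_iff_contDiffAt.2 fun θ => (h.sm (τ, θ) hτ).comp θ (contDiffAt_const.prodMk contDiffAt_id),
    fun θ => h.ne (τ, θ) hτ, h.per τ⟩

lemma IsFam.mul (h : IsFam δ U) (h' : IsFam δ V) : IsFam δ fun p => U p * V p :=
  ⟨fun p hp => (h.sm p hp).mul (h'.sm p hp), fun p hp => mul_ne_zero (h.ne p hp) (h'.ne p hp),
    fun τ => by rw [h.per, h'.per]⟩

lemma IsFam.inv (h : IsFam δ U) : IsFam δ fun p => (U p)⁻¹ :=
  ⟨fun p hp => (h.sm p hp).inv (h.ne p hp), fun p hp => inv_ne_zero (h.ne p hp),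
    fun τ => by rw [h.per]⟩

lemma IsFam.const {c : ℂ} (hc : c ≠ 0) : IsFam δ fun _ => c :=
  ⟨fun _ _ => contDiffAt_const, fun _ _ => hc, fun _ => rfl⟩

lemma IsFam.prod {ι : Type} (s : Finset ι) {W : ι → ℂ × ℝ → ℂ} (h : ∀ i ∈ s, IsFam δ (W i)) :
    IsFam δ fun p => ∏ i ∈ s, W i p :=
  ⟨fun p hp => contDiffAt_prod fun i hi => (h i hi).sm p hp,
    fun p hp => Finset.prod_ne_zero_iff.2 fun i hi => (h i hi).ne p hp,
    fun τ => Finset.prod_congr rfl fun i hi => (h i hi).per τ⟩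

lemma IsFam.cont (h : IsFam δ U) {p : ℂ × ℝ} (hp : ‖p.1‖ ≤ δ) :
    ContinuousAt (fun p => Real.log ‖U p‖) p ∧
      ContinuousAt (fun p => (fderiv ℝ U p (0, 1) / U p).im) p :=
  ⟨(h.sm p hp).continuousAt.norm.log (norm_ne_zero_iff.2 (h.ne p hp)),
    continuous_im.continuousAt.comp ((((h.sm p hp).continuousAt_fderiv one_ne_zero).clm_apply
      continuousAt_const).div (h.sm p hp).continuousAt (h.ne p hp))⟩

lemma IsFam.dl (h : IsFam δ U) {τ : ℂ} (hτ : ‖τ‖ ≤ δ) (θ : ℝ) :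
    dl (fun θ => U (τ, θ)) θ = (fderiv ℝ U (τ, θ) (0, 1) / U (τ, θ)).im := by
  have := ((h.sm (τ, θ) hτ).differentiableAt one_ne_zero).hasFDerivAt.comp_hasDerivAt θ
    ((hasDerivAt_const θ τ).prodMk (hasDerivAt_id θ))
  rw [H61.dl, ← this.deriv]
  rfl

theorem IsFam.bound (h : IsFam δ U) (h' : IsFam δ V) :
    ∃ K, ∀ τ, ‖τ‖ ≤ δ → |reg (fun θ => U (τ, θ)) fun θ => V (τ, θ)| ≤ K := by
  obtain ⟨K, hK⟩ := ((isCompact_closedBall (0 : ℂ) δ).prod
    (isCompact_Icc (a := (0 : ℝ)) (b := 2 * π))).exists_bound_of_continuousOn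
    (f := fun p => Real.log ‖U p‖ * (fderiv ℝ V p (0, 1) / V p).im -
      Real.log ‖V p‖ * (fderiv ℝ U p (0, 1) / U p).im) fun p hp => by
      have hp' : ‖p.1‖ ≤ δ := by simpa using hp.1
      exact (((h.cont hp').1.mul (h'.cont hp').2).sub
        ((h'.cont hp').1.mul (h.cont hp').2)).continuousWithinAt
  refine ⟨K * |2 * π - 0|, fun τ hτ => ?_⟩
  rw [← Real.norm_eq_abs, reg]
  refine intervalIntegral.norm_integral_le_of_norm_le_const fun θ hθ => ?_
  rw [h.dl hτ, h'.dl hτ]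
  rw [Set.uIoc_of_le Real.two_pi_pos.le] at hθ
  exact hK (τ, θ) ⟨by simpa using hτ, hθ.1.le, hθ.2⟩

end Fam

end Pool.Agent.MP_f3836a_nt.H61
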